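import Mathlib
import Pool.Agent.TH839.LD.Stm

/-!
CVX: local three lines theorem (statement `Pool.Agent.TH839.LD.S_CVX`, project LD of helper839).
-/

set_option autoImplicit false

open Complex Filter Topology Metric Set
open scoped ComplexConjugate

set_option maxHeartbeats 4000000

namespace Pool.Agent.TH324.LD

/-- maximum principle for a rectangle (as in `Pool.Agent.TH804.SB.max_rect`, helper804) -/
lemma max_rect {H : ℂ → ℂ} {x0 x1 y0 y1 M : ℝ} (hx : x0 < x1) (hy : y0 < y1)
    (ha : Differentiable ℂ H)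
    (h0 : ∀ z : ℂ, z.re = x0 → y0 ≤ z.im → z.im ≤ y1 → ‖H z‖ ≤ M)
    (h1 : ∀ z : ℂ, z.re = x1 → y0 ≤ z.im → z.im ≤ y1 → ‖H z‖ ≤ M)
    (h2 : ∀ z : ℂ, x0 ≤ z.re → z.re ≤ x1 → (z.im = y0 ∨ z.im = y1) → ‖H z‖ ≤ M)
    {z : ℂ} (hz1 : x0 ≤ z.re) (hz2 : z.re ≤ x1) (hz3 : y0 ≤ z.im) (hz4 : z.im ≤ y1) : ‖H z‖ ≤ M := by
  have hcl : closure (Ioo x0 x1 ×ℂ Ioo y0 y1) = Icc x0 x1 ×ℂ Icc y0 y1 := by
    rw [Complex.closure_reProdIm, closure_Ioo hx.ne, closure_Ioo hy.ne]
  have hbd : Bornology.IsBounded (Ioo x0 x1 ×ℂ Ioo y0 y1) :=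
    (isBounded_Ioo x0 x1).reProdIm (isBounded_Ioo y0 y1)
  refine Complex.norm_le_of_forall_mem_frontier_norm_le (f := H) hbd ?_ ?_ (z := z) ?_
  · exact ha.diffContOnCl
  · intro w hw
    rw [Complex.frontier_reProdIm, closure_Ioo hx.ne, frontier_Ioo hy, frontier_Ioo hx,
      closure_Ioo hy.ne] at hw
    rcases hw with hw | hw
    · rw [Complex.mem_reProdIm] at hw
      obtain ⟨⟨a1, a2⟩, a3⟩ := hw
      exact h2 w a1 a2 (by simpa using a3)
    · rw [Complex.mem_reProdIm] at hw
      obtain ⟨a1, a2, a3⟩ := hw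
      rcases a1 with h | h
      · exact h0 w h a2 a3
      · exact h1 w h a2 a3
  · rw [hcl, Complex.mem_reProdIm]
    exact ⟨⟨hz1, hz2⟩, ⟨hz3, hz4⟩⟩

/-- the weight `exp (b z + q (z - i y₀)²)` -/
lemma wt_norm (F : ℂ → ℂ) (b q y₀ : ℝ) (z : ℂ) : ‖F z * cexp (b * z + q * (z - y₀ * I) ^ 2)‖ =
    ‖F z‖ * Real.exp (b * z.re + q * (z.re ^ 2 - (z.im - y₀) ^ 2)) := by
  rw [norm_mul, Complex.norm_exp]
  congr 2
  have : ((z - y₀ * I) ^ 2).re = z.re ^ 2 - (z.im - y₀) ^ 2 := by
    rw [sq, Complex.mul_re]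
    simp
    ring
  rw [Complex.add_re, Complex.re_ofReal_mul, Complex.re_ofReal_mul, this]

lemma wt_le {F : ℂ → ℂ} {P a E b q y₀ : ℝ} {z : ℂ} (hP : 0 ≤ P) (h : ‖F z‖ ≤ P * Real.exp a)
    (h2 : a + (b * z.re + q * (z.re ^ 2 - (z.im - y₀) ^ 2)) ≤ E) :
    ‖F z * cexp (b * z + q * (z - y₀ * I) ^ 2)‖ ≤ P * Real.exp E := by
  rw [wt_norm]
  calc ‖F z‖ * Real.exp (b * z.re + q * (z.re ^ 2 - (z.im - y₀) ^ 2))
      ≤ P * Real.exp a * Real.exp (b * z.re + q * (z.re ^ 2 - (z.im - y₀) ^ 2)) :=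
        mul_le_mul_of_nonneg_right h (Real.exp_pos _).le
    _ = P * Real.exp (a + (b * z.re + q * (z.re ^ 2 - (z.im - y₀) ^ 2))) := by
        rw [mul_assoc, ← Real.exp_add]
    _ ≤ P * Real.exp E := mul_le_mul_of_nonneg_left (Real.exp_le_exp.2 h2) hP

/-- **local three lines theorem** -/
theorem cvx : Pool.Agent.TH839.LD.S_CVX := by
  intro ρ A κ W hρ hρ3 hA hκ hW
  set R1 : ℝ := 10 + 40 * (A + 3) / κ with hR1
  have hR1a : 10 ≤ R1 := by
    have : 0 ≤ 40 * (A + 3) / κ := by positivity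
    linarith
  have hR1b : A + 3 ≤ κ / 40 * (R1 ^ 2 - 9) := by
    have h1 : 40 * (A + 3) / κ ≤ R1 := by rw [hR1]; linarith
    rw [div_le_iff₀ hκ] at h1
    have h2 : R1 ≤ R1 ^ 2 - 9 := by nlinarith
    have h3 : κ / 40 * R1 ≤ κ / 40 * (R1 ^ 2 - 9) := mul_le_mul_of_nonneg_left h2 (by positivity)
    linarith
  refine ⟨κ / 4, W + R1, 1, by positivity, by linarith, ?_⟩
  intro ℓ P f hℓ hP hf hsym hup hmid hright
  have hℓ0 : 0 < ℓ := by linarith
  set q : ℝ := κ * ℓ / 40 with hq
  have hq0 : 0 < q := by positivity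
  have hκℓ : 0 < κ * ℓ := by positivity
  have hqR : (A + 3) * ℓ ≤ q * (R1 ^ 2 - 9) := by
    have := mul_le_mul_of_nonneg_right hR1b hℓ0.le
    calc (A + 3) * ℓ ≤ κ / 40 * (R1 ^ 2 - 9) * ℓ := this
      _ = q * (R1 ^ 2 - 9) := by rw [hq]; ring
  -- the case of non-negative real part
  have main : ∀ u : ℂ, 0 ≤ u.re → u.re ≤ 3 → |u.im| ≤ W →
      ‖f u‖ ≤ P * Real.exp (max |u.re| ρ * ℓ + κ * ℓ) := by
    intro u hu0 hu3 huW
    rw [abs_of_nonneg hu0]
    obtain ⟨huW1, huW2⟩ := abs_le.1 huW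
    have hwin : ∀ y : ℝ, u.im - R1 ≤ y → y ≤ u.im + R1 → |y| ≤ W + R1 := by
      intro y h1 h2
      rw [abs_le]; constructor <;> linarith
    have hcen : ‖f u‖ = ‖f u‖ * Real.exp 0 := by rw [Real.exp_zero, mul_one]
    rcases le_or_gt u.re ρ with h | h
    · rw [max_eq_right h]
      rcases hρ.eq_or_lt with h0 | h0
      · -- `ρ = 0`
        have hure : u.re = ρ := by linarith
        refine (hmid u hure (by linarith)).trans ?_
        apply mul_le_mul_of_nonneg_left _ hP.le
        apply Real.exp_le_exp.2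
        linarith
      · have key := max_rect (H := fun z => f z * cexp (((0 : ℝ) : ℂ) * z + (q : ℂ) * (z - (u.im : ℂ) * I) ^ 2))
          (x0 := -ρ) (x1 := ρ) (y0 := u.im - R1) (y1 := u.im + R1) (M := P * Real.exp (ρ * ℓ + κ * ℓ))
          (by linarith) (by linarith) (hf.mul (by fun_prop))
          (fun v h1 h3 h4 => by
            have hv : ‖f v‖ ≤ P * Real.exp (ρ * ℓ + κ / 4 * ℓ) := by
              rw [← hsym v]
              apply hmid
              · simp [h1]
              · simpa using hwin _ h3 h4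
            refine wt_le hP.le hv ?_
            rw [h1]
            have h5 : (-ρ) ^ 2 - (v.im - u.im) ^ 2 ≤ 9 := by nlinarith [sq_nonneg (v.im - u.im)]
            have h6 := mul_le_mul_of_nonneg_left h5 hq0.le
            have h7 : q * 9 = 9 / 40 * (κ * ℓ) := by rw [hq]; ring
            linarith)
          (fun v h1 h3 h4 => by
            have hv : ‖f v‖ ≤ P * Real.exp (ρ * ℓ + κ / 4 * ℓ) := hmid v h1 (hwin _ h3 h4)
            refine wt_le hP.le hv ?_
            rw [h1]
            have h5 : ρ ^ 2 - (v.im - u.im) ^ 2 ≤ 9 := by nlinarith [sq_nonneg (v.im - u.im)]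
            have h6 := mul_le_mul_of_nonneg_left h5 hq0.le
            have h7 : q * 9 = 9 / 40 * (κ * ℓ) := by rw [hq]; ring
            linarith)
          (fun v h1 h2 h3 => by
            have hvr : |v.re| ≤ 3 := by rw [abs_le]; constructor <;> linarith
            have hvi : (v.im - u.im) ^ 2 = R1 ^ 2 ∧ |v.im| ≤ W + R1 := by
              rcases h3 with h3 | h3
              · refine ⟨by rw [h3]; ring, hwin _ (by linarith) (by linarith)⟩
              · refine ⟨by rw [h3]; ring, hwin _ (by linarith) (by linarith)⟩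
            refine wt_le hP.le (hup v hvr hvi.2) ?_
            rw [hvi.1]
            have h5 : v.re ^ 2 ≤ 9 := by
              have := sq_le_sq' (by linarith [abs_le.1 hvr]) (abs_le.1 hvr).2
              linarith
            have h6 : q * (v.re ^ 2 - R1 ^ 2) ≤ q * (9 - R1 ^ 2) :=
              mul_le_mul_of_nonneg_left (by linarith) hq0.le
            have h7 : 0 ≤ ρ * ℓ := by positivity
            nlinarith)
          (z := u) (by linarith) h (by linarith) (by linarith)
        rw [wt_norm] at key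
        refine le_trans ?_ key
        rw [sub_self]
        have : (1 : ℝ) ≤ Real.exp (0 * u.re + q * (u.re ^ 2 - 0 ^ 2)) := by
          apply Real.one_le_exp
          have : 0 ≤ q * u.re ^ 2 := by positivity
          linarith
        exact le_mul_of_one_le_right (norm_nonneg _) this
    · rw [max_eq_left h.le]
      have hρ3' : ρ < 3 := by linarith
      have key := max_rect (H := fun z => f z * cexp (((-ℓ : ℝ) : ℂ) * z + (q : ℂ) * (z - (u.im : ℂ) * I) ^ 2))
          (x0 := ρ) (x1 := 3) (y0 := u.im - R1) (y1 := u.im + R1) (M := P * Real.exp (κ * ℓ))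
          hρ3' (by linarith) (hf.mul (by fun_prop))
          (fun v h1 h3 h4 => by
            have hv : ‖f v‖ ≤ P * Real.exp (ρ * ℓ + κ / 4 * ℓ) := hmid v h1 (hwin _ h3 h4)
            refine wt_le hP.le hv ?_
            rw [h1]
            have h5 : ρ ^ 2 - (v.im - u.im) ^ 2 ≤ 9 := by nlinarith [sq_nonneg (v.im - u.im)]
            have h6 := mul_le_mul_of_nonneg_left h5 hq0.le
            have h7 : q * 9 = 9 / 40 * (κ * ℓ) := by rw [hq]; ring
            linarith)
          (fun v h1 h3 h4 => by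
            have hv : ‖f v‖ ≤ P * Real.exp (3 * ℓ + κ / 4 * ℓ) := hright v h1 (hwin _ h3 h4)
            refine wt_le hP.le hv ?_
            rw [h1]
            have h5 : (3 : ℝ) ^ 2 - (v.im - u.im) ^ 2 ≤ 9 := by nlinarith [sq_nonneg (v.im - u.im)]
            have h6 := mul_le_mul_of_nonneg_left h5 hq0.le
            have h7 : q * 9 = 9 / 40 * (κ * ℓ) := by rw [hq]; ring
            linarith)
          (fun v h1 h2 h3 => by
            have hvr : |v.re| ≤ 3 := by rw [abs_le]; constructor <;> linarith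
            have hvi : (v.im - u.im) ^ 2 = R1 ^ 2 ∧ |v.im| ≤ W + R1 := by
              rcases h3 with h3 | h3
              · refine ⟨by rw [h3]; ring, hwin _ (by linarith) (by linarith)⟩
              · refine ⟨by rw [h3]; ring, hwin _ (by linarith) (by linarith)⟩
            refine wt_le hP.le (hup v hvr hvi.2) ?_
            rw [hvi.1]
            have h5 : v.re ^ 2 ≤ 9 := by
              have := sq_le_sq' (by linarith [abs_le.1 hvr]) (abs_le.1 hvr).2
              linarith
            have h6 : q * (v.re ^ 2 - R1 ^ 2) ≤ q * (9 - R1 ^ 2) :=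
              mul_le_mul_of_nonneg_left (by linarith) hq0.le
            have h7 : 0 ≤ ℓ * v.re := by
              apply mul_nonneg hℓ0.le; linarith
            nlinarith)
          (z := u) h.le hu3 (by linarith) (by linarith)
      rw [wt_norm] at key
      have h8 : Real.exp (-ℓ * u.re) ≤ Real.exp (-ℓ * u.re + q * (u.re ^ 2 - (u.im - u.im) ^ 2)) := by
        apply Real.exp_le_exp.2
        rw [sub_self]
        have : 0 ≤ q * u.re ^ 2 := by positivity
        linarith
      have h9 : ‖f u‖ * Real.exp (-ℓ * u.re) ≤ P * Real.exp (κ * ℓ) :=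
        (mul_le_mul_of_nonneg_left h8 (norm_nonneg _)).trans key
      calc ‖f u‖ = ‖f u‖ * Real.exp (-ℓ * u.re) * Real.exp (u.re * ℓ) := by
            rw [mul_assoc, ← Real.exp_add]
            have : -ℓ * u.re + u.re * ℓ = 0 := by ring
            rw [this, Real.exp_zero, mul_one]
        _ ≤ P * Real.exp (κ * ℓ) * Real.exp (u.re * ℓ) :=
            mul_le_mul_of_nonneg_right h9 (Real.exp_pos _).le
        _ = P * Real.exp (u.re * ℓ + κ * ℓ) := by
            rw [mul_assoc, ← Real.exp_add]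
            congr 2
            ring
  intro u hu3 huW
  obtain ⟨h1, h2⟩ := abs_le.1 hu3
  rcases le_or_gt 0 u.re with h | h
  · exact main u h h2 huW
  · have h3 := main (-conj u) (by simp; linarith) (by simp; linarith) (by simpa using huW)
    rw [hsym u] at h3
    simpa using h3

end Pool.Agent.TH324.LD
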